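import Pool.Agent.E8helper40.LG.Large

/-!
# Equidistribution of large Galois orbits, hierarchical form
-/

set_option autoImplicit false

open Finset MeasureTheory Filter Topology
open scoped BoundedContinuousFunction ENNReal

namespace Pool.Agent.E8helper40.LG

open Pool.Agent.E8helper40.EQ Pool.Agent.E8helper40.AA

/-- Averages over orbits and over their images. -/
lemma avg_map {H X Y : Type} [Group H] [MulAction H X] [MulAction H Y] [DecidableEq Y] (π : X → Y)
    (hπ : ∀ (σ : H) (z : X), π (σ • z) = σ • π z) (x : X) (A : Finset X) (B : Finset Y)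
    (hA : (A : Set X) = MulAction.orbit H x) (hB : (B : Set Y) = MulAction.orbit H (π x))
    (g : Y → ℝ) : (A.card : ℝ)⁻¹ * ∑ z ∈ A, g (π z) = (B.card : ℝ)⁻¹ * ∑ a ∈ B, g a := by
  classical
  have hmemA : ∀ z, z ∈ A ↔ z ∈ MulAction.orbit H x := fun z => by rw [← hA, mem_coe]
  have hmemB : ∀ z, z ∈ B ↔ z ∈ MulAction.orbit H (π x) := fun z => by rw [← hB, mem_coe]
  have hmaps : ∀ z ∈ A, π z ∈ B := by
    intro z hz
    obtain ⟨σ, rfl⟩ := (hmemA z).1 hz
    rw [hmemB]
    exact ⟨σ, (hπ σ x).symm⟩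
  set k := (A.filter fun z => π z = π x).card with hk
  have hfib : ∀ a ∈ B, (A.filter fun z => π z = a).card = k := by
    intro a ha
    obtain ⟨σ, rfl⟩ := (hmemB a).1 ha
    rw [hk]
    refine card_bij' (fun z _ => σ⁻¹ • z) (fun z _ => σ • z) ?_ ?_ ?_ ?_
    · intro z hz
      obtain ⟨h1, h2⟩ := mem_filter.1 hz
      refine mem_filter.2 ⟨?_, ?_⟩
      · rw [hmemA] at h1 ⊢
        obtain ⟨τ, rfl⟩ := h1
        exact ⟨σ⁻¹ * τ, mul_smul _ _ _⟩
      · rw [hπ, h2]
        exact inv_smul_smul σ (π x)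
    · intro z hz
      obtain ⟨h1, h2⟩ := mem_filter.1 hz
      refine mem_filter.2 ⟨?_, ?_⟩
      · rw [hmemA] at h1 ⊢
        obtain ⟨τ, rfl⟩ := h1
        exact ⟨σ * τ, mul_smul _ _ _⟩
      · rw [hπ, h2]
    · intro z _
      exact smul_inv_smul σ z
    · intro z _
      exact inv_smul_smul σ z
  have hcard : A.card = k * B.card := by
    rw [card_eq_sum_card_fiberwise hmaps, sum_congr rfl hfib, sum_const, smul_eq_mul, mul_comm]
  have hsum : ∑ z ∈ A, g (π z) = k * ∑ a ∈ B, g a := by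
    rw [← sum_fiberwise_of_maps_to hmaps, Finset.mul_sum]
    refine sum_congr rfl fun a ha => ?_
    rw [← hfib a ha, ← nsmul_eq_mul, ← sum_const]
    exact sum_congr rfl fun z hz => by rw [(mem_filter.1 hz).2]
  have hApos : 0 < A.card := Finset.card_pos.2 ⟨x, (hmemA x).2 (MulAction.mem_orbit_self x)⟩
  have hk0 : (k : ℝ) ≠ 0 := by
    intro h
    have : k = 0 := by exact_mod_cast h
    rw [this, zero_mul] at hcard
    omega
  rw [hsum, hcard]
  push_cast
  rw [mul_inv]
  field_simp

section size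

variable {Γ : Type} [Group Γ] {J : Type} {Z : J → Type} [∀ j, MulAction Γ (Z j)]

/-- The subgroup of `Δ` which fixes the coordinates with the property `p`. -/
def fixing (Δ : Subgroup Γ) (p : J → Prop) (w : ∀ l, Z l) : Subgroup Γ :=
  Δ ⊓ ⨅ l : {l // p l}, MulAction.stabilizer Γ (w l)

lemma fixing_le (Δ : Subgroup Γ) (p : J → Prop) (w : ∀ l, Z l) : fixing Δ p w ≤ Δ := inf_le_left

lemma fixing_fix (Δ : Subgroup Γ) (p : J → Prop) (w : ∀ l, Z l) {σ : Γ} (hσ : σ ∈ fixing Δ p w)
    (l : J) (hl : p l) : σ • w l = w l :=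
  (Subgroup.mem_iInf.1 (Subgroup.mem_inf.1 hσ).2) ⟨l, hl⟩

lemma fixing_congr (Δ : Subgroup Γ) (p : J → Prop) (w w' : ∀ l, Z l) (h : ∀ l, p l → w l = w' l) :
    fixing Δ p w = fixing Δ p w' := by
  rw [fixing, fixing]
  congr 1
  exact iInf_congr fun l => by rw [h l l.2]

lemma size' [Fintype J] (Δ : Subgroup Γ) (hΔ : Δ.index ≠ 0) (w : ∀ l, Z l)
    (hfin : ∀ l, (MulAction.orbit Γ (w l)).Finite) (j : J) (p q : J → Prop)
    (hq : ∀ l, q l → p l ∨ l = j) :
    (MulAction.orbit Γ (fun l : {l // q l} => w l)).ncard ≤ Δ.index *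
      (MulAction.orbit Γ (fun l : {l // p l} => w l)).ncard *
      (MulAction.orbit (fixing Δ p w) (w j)).ncard := by
  classical
  set S : Subgroup Γ := ⨅ l : {l // p l}, MulAction.stabilizer Γ (w l) with hS
  set T : Subgroup Γ := MulAction.stabilizer Γ (w j) with hT
  have hst : ∀ l, (MulAction.stabilizer Γ (w l)).index ≠ 0 := by
    intro l
    rw [MulAction.index_stabilizer]
    exact ((Set.ncard_pos (hfin l)).2 ⟨w l, MulAction.mem_orbit_self _⟩).ne'
  have hS0 : S.index ≠ 0 := Subgroup.index_iInf_ne_zero fun l => hst l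
  have hDS : (Δ ⊓ S).index ≠ 0 := Subgroup.index_inf_ne_zero hΔ hS0
  have hDST : (T ⊓ (Δ ⊓ S)).index ≠ 0 := Subgroup.index_inf_ne_zero (hst j) hDS
  have hSst : S = MulAction.stabilizer Γ (fun l : {l // p l} => w l) := by
    ext σ
    rw [hS, Subgroup.mem_iInf, MulAction.mem_stabilizer_iff]
    constructor
    · intro h
      funext l
      exact h l
    · intro h l
      exact congrFun h l
  have hle : T ⊓ (Δ ⊓ S) ≤ MulAction.stabilizer Γ (fun l : {l // q l} => w l) := by
    intro σ hσ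
    rw [MulAction.mem_stabilizer_iff]
    funext l
    rcases hq l l.2 with hl | hl
    · exact (Subgroup.mem_iInf.1 hσ.2.2) ⟨l, hl⟩
    · change σ • w l = w l
      rw [hl]
      exact hσ.1
  have : (T ⊓ (Δ ⊓ S)).FiniteIndex := ⟨hDST⟩
  rw [← MulAction.index_stabilizer]
  refine (Subgroup.index_antitone hle).trans ?_
  rw [← Subgroup.relIndex_mul_index (inf_le_right : T ⊓ (Δ ⊓ S) ≤ Δ ⊓ S),
    Subgroup.inf_relIndex_right, orbit_ncard, mul_comm]
  refine Nat.mul_le_mul_right _ ((Subgroup.index_inf_le).trans (Nat.mul_le_mul_left _ ?_))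
  rw [hSst, MulAction.index_stabilizer]

end size

variable {G : Type} [Group G] {Γ : Subgroup G}

variable {J : Type} [Fintype J] {W : J → Type}

section step

variable (P : ∀ j, SpecialPoints Γ (W j)) (x : ∀ j, (P j).Z)

/-- the orbit of a coordinate under the automorphisms which fix some coordinates -/
noncomputable def Q' (p : J → Prop) (j : J) (w : ∀ l, (P l).Z) : Finset (P j).Z :=
  (show (MulAction.orbit (fixing (Delta P x) p w) (w j)).Finite from by
    refine ((P j).orbit_finite (w j)).subset ?_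
    rintro _ ⟨v, rfl⟩
    exact ⟨(v : Γ), rfl⟩).toFinset

omit [Fintype J] in
lemma coe_Q' (p : J → Prop) (j : J) (w : ∀ l, (P l).Z) :
    (Q' P x p j w : Set (P j).Z) = MulAction.orbit (fixing (Delta P x) p w) (w j) := by
  simp [Q']

omit [Fintype J] in
lemma mem_Q' (p : J → Prop) (j : J) (w : ∀ l, (P l).Z) (a : (P j).Z) :
    a ∈ Q' P x p j w ↔ a ∈ MulAction.orbit (fixing (Delta P x) p w) (w j) := by
  simp [Q']

lemma step' (p : J → Prop) (j : J) (g : (P j).Z → ℝ) (h : (∀ l, (P l).Z) → ℝ) {A ε : ℝ}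
    (hh : ∀ w w', (∀ l, p l → w l = w' l) → h w = h w') (hA : ∀ w, |h w| ≤ A)
    (hg : ∀ w ∈ MulAction.orbit Γ x, |((Q' P x p j w).card : ℝ)⁻¹ * ∑ a ∈ Q' P x p j w, g a| ≤ ε) :
    |(((orbit_finite P x).toFinset).card : ℝ)⁻¹ *
      ∑ w ∈ (orbit_finite P x).toFinset, g (w j) * h w| ≤ A * ε := by
  classical
  set O := (orbit_finite P x).toFinset
  have hmemO : ∀ w, w ∈ O ↔ w ∈ MulAction.orbit Γ x := fun w => by simp [O]
  have hfin : ∀ w : ∀ l, (P l).Z, (MulAction.orbit (fixing (Delta P x) p w) w).Finite := by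
    intro w
    refine (orbit_finite P w).subset ?_
    rintro _ ⟨v, rfl⟩
    exact ⟨(v : Γ), rfl⟩
  let R : (∀ l, (P l).Z) → Finset (∀ l, (P l).Z) := fun w => (hfin w).toFinset
  have hR : ∀ w, (R w : Set (∀ l, (P l).Z)) = MulAction.orbit (fixing (Delta P x) p w) w :=
    fun w => by simp [R]
  have hmemR : ∀ w z, z ∈ R w ↔ z ∈ MulAction.orbit (fixing (Delta P x) p w) w :=
    fun w z => by simp [R]
  have hsame : ∀ w z, z ∈ R w → ∀ l, p l → z l = w l := by
    intro w z hz l hl
    obtain ⟨σ, rfl⟩ := (hmemR w z).1 hz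
    exact fixing_fix _ p w σ.2 l hl
  obtain ⟨y, hyO, hy⟩ := exists_block O ⟨x, by simp [O, MulAction.mem_orbit_self]⟩ R (by
      intro w hw z hz
      rw [hmemO] at hw ⊢
      obtain ⟨σ, rfl⟩ := (hmemR w z).1 hz
      obtain ⟨γ, rfl⟩ := hw
      exact ⟨(σ : Γ) * γ, mul_smul _ _ _⟩) (by
      intro w _
      rw [hmemR]
      exact MulAction.mem_orbit_self _) (by
      intro w _ z hz
      have h1 : fixing (Delta P x) p z = fixing (Delta P x) p w :=
        fixing_congr _ p _ _ (hsame w z hz)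
      ext v
      rw [hmemR, hmemR, h1, MulAction.orbit_eq_iff.2 ((hmemR w z).1 hz)])
    (fun w => g (w j) * h w) 0
  rw [sub_zero, sub_zero] at hy
  refine hy.trans ?_
  have h1 : ∑ z ∈ R y, g (z j) * h z = (∑ z ∈ R y, g (z j)) * h y := by
    rw [sum_mul]
    exact sum_congr rfl fun z hz => by rw [hh z y (hsame y z hz)]
  have h2 := avg_map (H := fixing (Delta P x) p y) (fun w : ∀ l, (P l).Z => w j)
    (fun _ _ => rfl) y (R y) (Q' P x p j y) (hR y) (coe_Q' P x p j y) g
  rw [h1, ← mul_assoc, h2, abs_mul, mul_comm]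
  exact mul_le_mul (hA y) (hg y ((hmemO y).1 hyO)) (abs_nonneg _) ((abs_nonneg _).trans (hA y))

/-- The small orbits are large. -/
lemma size_le' (c : ℕ) (hK : ∀ j, ((P j).K (x j)).index ≠ 0 ∧ ((P j).K (x j)).index ≤ c)
    (j : J) (η : ℝ) (p q : J → Prop) (hq : ∀ l, q l → p l ∨ l = j)
    (hs : ((MulAction.orbit Γ (fun l : {l // p l} => x l)).ncard *
      (MulAction.orbit Γ (x j)).ncard : ℝ) /
      ((MulAction.orbit Γ (fun l : {l // q l} => x l)).ncard *
        ((MulAction.orbit Γ (x j)).ncard : ℝ) ^ η)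
        < 1 / ((c : ℝ) ^ Fintype.card J)) (w : ∀ j, (P j).Z) (hw : w ∈ MulAction.orbit Γ x) :
    ((MulAction.orbit Γ (w j)).ncard : ℝ) ^ (1 - η)
      ≤ (MulAction.orbit (fixing (Delta P x) p w) (w j)).ncard := by
  classical
  obtain ⟨hb0, hb⟩ := Delta_index P x c hK
  have hwl : ∀ l, MulAction.orbit Γ (w l) = MulAction.orbit Γ (x l) := by
    intro l
    obtain ⟨γ, rfl⟩ := hw
    exact MulAction.orbit_eq_iff.2 ⟨γ, rfl⟩
  have hwp : ∀ r : J → Prop, MulAction.orbit Γ (fun l : {l // r l} => w l)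
      = MulAction.orbit Γ (fun l : {l // r l} => x l) := by
    intro r
    obtain ⟨γ, rfl⟩ := hw
    exact MulAction.orbit_eq_iff.2 ⟨γ, rfl⟩
  have h1 := size' (Delta P x) hb0 w (fun l => (P l).orbit_finite (w l)) j p q hq
  rw [hwp, hwp] at h1
  rw [hwl]
  have hpos : (0 : ℝ) < ((MulAction.orbit Γ (x j)).ncard : ℝ) := by
    exact_mod_cast (Set.ncard_pos ((P j).orbit_finite (x j))).2 ⟨x j, MulAction.mem_orbit_self _⟩
  have hfin : ∀ r : J → Prop, (MulAction.orbit Γ (fun l : {l // r l} => x l)).Finite := by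
    intro r
    exact orbit_finite (fun l : {l // r l} => P l) (fun l => x l)
  have hNpos : ∀ r : J → Prop,
      (0 : ℝ) < ((MulAction.orbit Γ (fun l : {l // r l} => x l)).ncard : ℝ) := by
    intro r
    exact_mod_cast (Set.ncard_pos (hfin r)).2 ⟨_, MulAction.mem_orbit_self _⟩
  have hNq := hNpos q
  have hNp := hNpos p
  revert h1 hs hpos hNq hNp
  generalize (MulAction.orbit Γ (fun l : {l // q l} => x l)).ncard = N
  generalize (MulAction.orbit Γ (fun l : {l // p l} => x l)).ncard = R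
  generalize (MulAction.orbit Γ (x j)).ncard = Nj
  generalize (MulAction.orbit (fixing (Delta P x) p w) (w j)).ncard = q'
  intro hs h1 hpos hNq hNp
  have hC : (0 : ℝ) < (c : ℝ) ^ Fintype.card J := by
    have : 0 < c ^ Fintype.card J := lt_of_lt_of_le (Nat.pos_of_ne_zero hb0) hb
    exact_mod_cast this
  have h2 : (N : ℝ) ≤ (c : ℝ) ^ Fintype.card J * R * q' := by
    have h3 : (N : ℝ) ≤ ((Delta P x).index : ℝ) * R * q' := by
      exact_mod_cast h1
    refine h3.trans ?_
    have h4 : ((Delta P x).index : ℝ) ≤ (c : ℝ) ^ Fintype.card J := by exact_mod_cast hb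
    exact mul_le_mul_of_nonneg_right (mul_le_mul_of_nonneg_right h4 hNp.le) (Nat.cast_nonneg _)
  have hNη : 0 < (Nj : ℝ) ^ η := Real.rpow_pos_of_pos hpos η
  rw [div_lt_div_iff₀ (mul_pos hNq hNη) hC, one_mul] at hs
  have h5 : (R : ℝ) * Nj * (c : ℝ) ^ Fintype.card J
      ≤ (c : ℝ) ^ Fintype.card J * R * q' * (Nj : ℝ) ^ η :=
    hs.le.trans (mul_le_mul_of_nonneg_right h2 hNη.le)
  have h6 : (Nj : ℝ) ≤ q' * (Nj : ℝ) ^ η := by
    have h7 : (R * (c : ℝ) ^ Fintype.card J) * Nj
        ≤ (R * (c : ℝ) ^ Fintype.card J) * (q' * (Nj : ℝ) ^ η) := by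
      calc (R * (c : ℝ) ^ Fintype.card J) * Nj = R * Nj * (c : ℝ) ^ Fintype.card J := by ring
        _ ≤ (c : ℝ) ^ Fintype.card J * R * q' * (Nj : ℝ) ^ η := h5
        _ = _ := by ring
    exact le_of_mul_le_mul_left h7 (mul_pos hNp hC)
  rw [Real.rpow_sub hpos, Real.rpow_one, div_le_iff₀ hNη]
  exact h6

lemma marginal_self [∀ j, TopologicalSpace (W j)]
    [∀ j, SecondCountableTopology (W j)] [∀ j, TopologicalSpace.PseudoMetrizableSpace (W j)]
    [∀ j, MeasurableSpace (W j)] [∀ j, BorelSpace (W j)] (j : J) :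
    (galoisMeasure P x).map (fun w => w j) = uniform (MulAction.orbit Γ (x j)) (P j).pt :=
  marginal P x (fun j => ⟨x j, MulAction.mem_orbit_self _⟩) j

end step

/-- Special points with large Galois orbits. -/
theorem chain [LinearOrder J] [∀ j, TopologicalSpace (W j)] [∀ j, PolishSpace (W j)]
    [∀ j, MeasurableSpace (W j)] [∀ j, BorelSpace (W j)] (P : ∀ j, SpecialPoints Γ (W j))
    (m : ∀ j, ProbabilityMeasure (W j)) (c : ℕ) (x : ℕ → ∀ j, (P j).Z)
    (hK : ∀ i j, ((P j).K (x i j)).index ≠ 0 ∧ ((P j).K (x i j)).index ≤ c) (η : ℝ) (j₀ : J)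
    (hj₀ : ∀ j, j₀ ≤ j)
    (h₀ : Tendsto (fun i => lam (P j₀) (x i j₀)) atTop (𝓝 (m j₀)))
    (hsparse : ∀ j, j₀ < j → SparselyEquidistributed (P j) (fun i => x i j) (m j) η)
    (hsize : ∀ j, j₀ < j → Tendsto (fun i =>
      ((MulAction.orbit Γ (fun l : {l // l < j} => x i l)).ncard *
        (MulAction.orbit Γ (x i j)).ncard : ℝ) /
      ((MulAction.orbit Γ (fun l : {l // l ≤ j} => x i l)).ncard *
        ((MulAction.orbit Γ (x i j)).ncard : ℝ) ^ η)) atTop (𝓝 0)) :
    Tendsto (fun i => nu P (x i)) atTop (𝓝 (ProbabilityMeasure.pi m)) := by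
  classical
  refine tendsto_pi_of_prod _ m fun f => ?_
  let O : ∀ i, Finset (∀ j, (P j).Z) := fun i => (orbit_finite P (x i)).toFinset
  let F : ∀ l, (P l).Z → ℝ := fun l a => f l ((P l).pt a)
  let M : J → ℝ := fun l => ∫ w, f l w ∂(m l : Measure (W l))
  have hOpos : ∀ i, (0 : ℝ) < (O i).card := fun i => by
    have : 0 < (O i).card := Finset.card_pos.2 ⟨x i, by simp [O, MulAction.mem_orbit_self]⟩
    exact_mod_cast this
  have hint : ∀ i (g : (∀ j, W j) →ᵇ ℝ), ∫ w, g w ∂(nu P (x i) : Measure (∀ j, W j))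
      = ((O i).card : ℝ)⁻¹ * ∑ w ∈ O i, g (fun j => (P j).pt (w j)) := by
    intro i g
    have h1 : (nu P (x i) : Measure (∀ j, W j))
        = uniform (O i : Set (∀ j, (P j).Z)) (fun w j => (P j).pt (w j)) := by
      rw [Set.Finite.coe_toFinset]
      rfl
    rw [h1, integral_uniform]
  have key : ∀ S : Finset J, Tendsto (fun i => ((O i).card : ℝ)⁻¹ * ∑ w ∈ O i,
      ∏ l ∈ S, F l (w l)) atTop (𝓝 (∏ l ∈ S, M l)) := by
    intro S
    induction S using Finset.induction_on_max with
    | empty =>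
      simp only [prod_empty, sum_const, nsmul_eq_mul, mul_one]
      refine tendsto_const_nhds.congr fun i => ?_
      rw [inv_mul_cancel₀ (hOpos i).ne']
    | insert j S hjS ih =>
      have hjT : j ∉ S := fun h => lt_irrefl j (hjS j h)
      rcases (hj₀ j).eq_or_lt with rfl | hlt
      · have hS : S = ∅ := by
          rw [Finset.eq_empty_iff_forall_notMem]
          intro l hl
          exact absurd (hjS l hl) (not_lt.2 (hj₀ l))
        subst hS
        simp only [insert_empty_eq, prod_singleton]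
        have h1 := (ProbabilityMeasure.tendsto_iff_forall_integral_tendsto.1 h₀) (f j₀)
        refine h1.congr fun i => ?_
        have h2 := hint i ((f j₀).compContinuous ⟨fun w => w j₀, continuous_apply j₀⟩)
        refine Eq.trans ?_ h2
        change ∫ w, f j₀ w ∂(uniform (MulAction.orbit Γ (x i j₀)) (P j₀).pt)
          = ∫ w, f j₀ (w j₀) ∂(galoisMeasure P (x i))
        rw [← marginal_self P (x i) j₀, integral_map (measurable_pi_apply j₀).aemeasurable
          (f j₀).continuous.measurable.aestronglyMeasurable]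
      let h : (∀ l, (P l).Z) → ℝ := fun w => ∏ l ∈ S, F l (w l)
      let A : ℝ := ∏ l ∈ S, ‖f l‖
      have hA0 : 0 ≤ A := prod_nonneg fun l _ => norm_nonneg _
      have hA : ∀ w, |h w| ≤ A := by
        intro w
        simp only [h, A]
        rw [abs_prod]
        exact prod_le_prod (fun l _ => abs_nonneg _) fun l _ => (f l).norm_coe_le_norm _
      have hh : ∀ w w' : ∀ l, (P l).Z, (∀ l, l < j → w l = w' l) → h w = h w' := by
        intro w w' hww
        exact prod_congr rfl fun l hl => by rw [hww l (hjS l hl)]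
      have herr : Tendsto (fun i => ((O i).card : ℝ)⁻¹ * ∑ w ∈ O i, (F j (w j) - M j) * h w)
          atTop (𝓝 0) := by
        rw [Metric.tendsto_atTop']
        intro ε hε
        have hc0 : (0 : ℝ) < 1 / ((c : ℝ) ^ Fintype.card J) := by
          obtain ⟨hb0, hb⟩ := Delta_index P (x 0) c (hK 0)
          have : 0 < c ^ Fintype.card J := lt_of_lt_of_le (Nat.pos_of_ne_zero hb0) hb
          have : (0 : ℝ) < (c : ℝ) ^ Fintype.card J := by exact_mod_cast this
          positivity
        have hev1 := (hsize j hlt).eventually (gt_mem_nhds hc0)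
        have hev2 := hsparse j hlt (f j) (ε / (A + 1)) (by positivity)
        obtain ⟨N, hN⟩ := eventually_atTop.1 (hev1.and hev2)
        refine ⟨N, fun i hi => ?_⟩
        obtain ⟨h1, h2⟩ := hN i hi.le
        rw [Real.dist_eq, sub_zero]
        have h3 := step' P (x i) (fun l => l < j) j (fun a => F j a - M j) h hh hA
            (ε := ε / (A + 1)) (by
          intro w hw
          have hwj : w j ∈ MulAction.orbit Γ (x i j) := by
            obtain ⟨γ, rfl⟩ := hw
            exact ⟨γ, rfl⟩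
          have h4 := h2 (w j) hwj (fixing (Delta P (x i)) (fun l => l < j) w) (by
            refine (fixing_le _ _ w).trans ((iInf_le _ j).trans (le_of_eq ?_))
            obtain ⟨γ, hγ⟩ := hwj
            have : cm (P j) (γ • x i j) = cm (P j) (x i j) := cm_smul P j γ (x i j)
            change γ • x i j = w j at hγ
            rw [← hγ, this]) (size_le' P (x i) c (hK i) j η (fun l => l < j) (fun l => l ≤ j)
              (fun l hl => lt_or_eq_of_le hl) h1 w hw)
          have h5 : (P j).orbitMeasure (fixing (Delta P (x i)) (fun l => l < j) w) (w j)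
              = uniform (Q' P (x i) (fun l => l < j) j w : Set (P j).Z) (P j).pt := by
            rw [coe_Q']
            rfl
          rw [h5, integral_uniform] at h4
          have hpos : (0 : ℝ) < (Q' P (x i) (fun l => l < j) j w).card := by
            have : 0 < (Q' P (x i) (fun l => l < j) j w).card :=
              Finset.card_pos.2 ⟨w j, (mem_Q' P (x i) _ j w _).2 (MulAction.mem_orbit_self _)⟩
            exact_mod_cast this
          have h6 : ((Q' P (x i) (fun l => l < j) j w).card : ℝ)⁻¹ *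
              ∑ a ∈ Q' P (x i) (fun l => l < j) j w, (F j a - M j)
              = ((Q' P (x i) (fun l => l < j) j w).card : ℝ)⁻¹ *
                ∑ a ∈ Q' P (x i) (fun l => l < j) j w, f j ((P j).pt a) - M j := by
            rw [sum_sub_distrib, sum_const, nsmul_eq_mul, mul_sub, ← mul_assoc,
              inv_mul_cancel₀ hpos.ne', one_mul]
          rw [h6]
          exact h4.le)
        refine h3.trans_lt ?_
        rw [mul_div_assoc', div_lt_iff₀ (by positivity)]
        nlinarith
      have hsum : ∀ i, ((O i).card : ℝ)⁻¹ * ∑ w ∈ O i, ∏ l ∈ insert j S, F l (w l)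
          = ((O i).card : ℝ)⁻¹ * ∑ w ∈ O i, (F j (w j) - M j) * h w
            + M j * (((O i).card : ℝ)⁻¹ * ∑ w ∈ O i, ∏ l ∈ S, F l (w l)) := by
        intro i
        simp only [prod_insert hjT, sub_mul, sum_sub_distrib, mul_sub, Finset.mul_sum, h]
        have : ∀ w ∈ O i, ((O i).card : ℝ)⁻¹ * (M j * ∏ l ∈ S, F l (w l))
            = M j * (((O i).card : ℝ)⁻¹ * ∏ l ∈ S, F l (w l)) := fun w _ => by ring
        rw [sum_congr rfl this]
        ring
      simp only [hsum]
      rw [prod_insert hjT]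
      have := herr.add (ih.const_mul (M j))
      rwa [zero_add] at this
  have hfin := key univ
  refine hfin.congr fun i => ?_
  rw [hint i]
  simp only [prodFn_apply, F]

end Pool.Agent.E8helper40.LG
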