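import Pool.Agent.E8helper40.AA.AlmostAll

/-!
# Special points with large Galois orbits
-/

set_option autoImplicit false

open Finset MeasureTheory Filter Topology
open scoped BoundedContinuousFunction ENNReal

namespace Pool.Agent.E8helper40.LG

open Pool.Agent.E8helper40.EQ Pool.Agent.E8helper40.AA

variable {G : Type} [Group G] {Γ : Subgroup G}

/-- Sparse equidistribution with exponent `η`: the orbits of the Galois conjugates `z` of `x i` under
subgroups `B` of `cm P z` are equidistributed with respect to `m`, uniformly in `z` and `B`, if they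
have at least `N ^ (1 - η)` elements, `N` the number of the conjugates. -/
def SparselyEquidistributed {Y : Type} [TopologicalSpace Y] [MeasurableSpace Y]
    (P : SpecialPoints Γ Y) (x : ℕ → P.Z) (m : ProbabilityMeasure Y) (η : ℝ) : Prop :=
  ∀ (f : Y →ᵇ ℝ) (ε : ℝ), 0 < ε → ∀ᶠ i in atTop, ∀ z ∈ MulAction.orbit Γ (x i),
    ∀ B : Subgroup Γ, B ≤ cm P z →
      ((MulAction.orbit Γ z).ncard : ℝ) ^ (1 - η) ≤ (MulAction.orbit B z).ncard →
        |∫ y, f y ∂(P.orbitMeasure B z) - ∫ y, f y ∂(m : Measure Y)| < ε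

lemma orbit_ncard {Γ : Type} [Group Γ] {X : Type} [MulAction Γ X] (H : Subgroup Γ) (z : X) :
    (MulAction.orbit H z).ncard = (MulAction.stabilizer Γ z).relIndex H := by
  rw [← MulAction.index_stabilizer]
  rfl

variable {J : Type} [Fintype J] {W : J → Type}

/-- Convergence to a product measure can be tested on products of functions. -/
lemma tendsto_pi_of_prod [∀ j, TopologicalSpace (W j)] [∀ j, PolishSpace (W j)]
    [∀ j, MeasurableSpace (W j)] [∀ j, BorelSpace (W j)]
    (ν : ℕ → ProbabilityMeasure (∀ j, W j)) (m : ∀ j, ProbabilityMeasure (W j))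
    (h : ∀ f : ∀ j, (W j) →ᵇ ℝ, Tendsto (fun i => ∫ w, prodFn f w ∂(ν i : Measure (∀ j, W j)))
      atTop (𝓝 (∏ j, ∫ w, f j w ∂(m j : Measure (W j))))) :
    Tendsto ν atTop (𝓝 (ProbabilityMeasure.pi m)) := by
  classical
  have hmarg : ∀ j, Tendsto (fun i => (ν i).map (measurable_pi_apply (X := W) j).aemeasurable)
      atTop (𝓝 (m j)) := by
    intro j
    rw [ProbabilityMeasure.tendsto_iff_forall_integral_tendsto]
    intro g
    have h1 := h (Function.update (fun l => (1 : (W l) →ᵇ ℝ)) j g)
    have h2 : ∏ l, ∫ w, (Function.update (fun l => (1 : (W l) →ᵇ ℝ)) j g) l w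
        ∂(m l : Measure (W l)) = ∫ w, g w ∂(m j : Measure (W j)) := by
      rw [Fintype.prod_eq_single j]
      · rw [Function.update_self]
      · intro l hl
        rw [Function.update_of_ne hl]
        simp
    rw [h2] at h1
    refine h1.congr fun i => ?_
    have h3 : ∀ w : ∀ l, W l,
        prodFn (Function.update (fun l => (1 : (W l) →ᵇ ℝ)) j g) w = g (w j) := by
      intro w
      rw [prodFn_apply, Fintype.prod_eq_single j]
      · rw [Function.update_self]
      · intro l hl
        rw [Function.update_of_ne hl]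
        rfl
    simp only [h3]
    rw [ProbabilityMeasure.toMeasure_map, integral_map (measurable_pi_apply j).aemeasurable
      g.continuous.measurable.aestronglyMeasurable]
  have htight : IsTightMeasureSet {((μ : ProbabilityMeasure (∀ j, W j)) : Measure (∀ j, W j)) |
      μ ∈ Set.range ν} := by
    rw [isTightMeasureSet_iff_exists_isCompact_measure_compl_le]
    intro ε hε
    set ε' : ℝ≥0∞ := ε / (Fintype.card J + 1) with hε'
    have hε'0 : 0 < ε' := ENNReal.div_pos hε.ne' (by simp)
    have h1 : ∀ j, ∃ K : Set (W j), IsCompact K ∧ ∀ i,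
        (((ν i).map (measurable_pi_apply (X := W) j).aemeasurable : ProbabilityMeasure (W j)) :
          Measure (W j)) Kᶜ ≤ ε' := fun j => tight_range _ (m j) (hmarg j) ε' hε'0
    choose K hK hKε using h1
    refine ⟨Set.univ.pi K, isCompact_univ_pi hK, ?_⟩
    rintro _ ⟨_, ⟨i, rfl⟩, rfl⟩
    have h2 : (Set.univ.pi K)ᶜ ⊆ ⋃ j, (fun w : ∀ j, W j => w j) ⁻¹' (K j)ᶜ := by
      intro w hw
      rw [Set.mem_compl_iff, Set.mem_univ_pi, not_forall] at hw
      obtain ⟨j, hj⟩ := hw
      exact Set.mem_iUnion.2 ⟨j, hj⟩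
    refine (measure_mono h2).trans ((measure_iUnion_fintype_le _ _).trans ?_)
    have h3 : ∀ j, (ν i : Measure (∀ j, W j)) ((fun w : ∀ j, W j => w j) ⁻¹' (K j)ᶜ) ≤ ε' := by
      intro j
      rw [← Measure.map_apply (measurable_pi_apply j) (hK j).measurableSet.compl]
      exact hKε j i
    calc ∑ j, (ν i : Measure (∀ j, W j)) ((fun w : ∀ j, W j => w j) ⁻¹' (K j)ᶜ)
        ≤ ∑ _j : J, ε' := sum_le_sum fun j _ => h3 j
      _ = Fintype.card J * ε' := by simp
      _ ≤ (Fintype.card J + 1) * ε' := by
          gcongr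
          exact le_self_add
      _ ≤ ε := ENNReal.mul_div_le
  refine (tendsto_iff_ultrafilter _ _ _).2 fun U hU => ?_
  have h_compact : IsCompact (closure (Set.range ν)) := isCompact_closure_of_isTightMeasureSet htight
  obtain ⟨μ', -, hμ'⟩ := h_compact.ultrafilter_le_nhds (U.map ν)
    (le_principal_iff.2 (mem_map.2 (univ_mem' fun i => subset_closure ⟨i, rfl⟩)))
  have hμ'2 : Tendsto ν U (𝓝 μ') := hμ'
  have hμ'3 := ProbabilityMeasure.tendsto_iff_forall_integral_tendsto.1 hμ'2
  have heq : (μ' : Measure (∀ j, W j))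
      = ((ProbabilityMeasure.pi m : ProbabilityMeasure (∀ j, W j)) : Measure (∀ j, W j)) := by
    refine ext_prod fun f => ?_
    have h1 : ∫ w, prodFn f w ∂(μ' : Measure (∀ j, W j))
        = ∏ j, ∫ w, f j w ∂(m j : Measure (W j)) :=
      tendsto_nhds_unique (hμ'3 (prodFn f)) ((h f).comp hU)
    simp only [prodFn_apply] at h1
    rw [h1, ProbabilityMeasure.toMeasure_pi]
    exact (integral_fintype_prod_eq_prod (fun j => (f j : W j → ℝ))).symm
  have heq2 : μ' = ProbabilityMeasure.pi m := Subtype.ext heq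
  rw [← heq2]
  exact hμ'2

end Pool.Agent.E8helper40.LG
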